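import Pool.Agent.Lib.MP_1a91b9_nuX.DS.Nrm
import Pool.Agent.Lib.MP_1a91b9_nuW.W.Ram

/-!
# The norm of `b` is `1` when the orders of `ℓ` are powers of `ℓ`
-/

set_option autoImplicit false
set_option linter.unusedSectionVars false

namespace Pool.Agent.Lib.MP_1a91b9_nuW.DS

open NumberField IsDedekindDomain WeierstrassCurve Pool.Agent.Lib.MP_1a91b9_nuT
open Pool.Agent.Lib.MP_1a91b9_nuX Pool.Agent.Lib.MP_1a91b9_nuX.DB Pool.Agent.Lib.MP_1a91b9_nuX.DX
open Pool.Agent.Lib.MP_1a91b9_nuX.DS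
open Pool.Agent.Lib.MP_1a91b9_nuW.W (EP)

variable [CD]

universe u

private theorem nrb_finrank : Module.finrank ℚ K = 2 := finrank_K

/-- the order of `1 - ξ` is at most the order of `1 - ξ ^ n` -/
private theorem nrb_le {N : Type u} [Field N] [NumberField N] (W : HeightOneSpectrum (𝓞 N)) {ξ : N}
    (hξ : W.valuation N ξ ≤ 1) (n : ℕ) (h1 : 1 - ξ ^ n ≠ 0) : od W (1 - ξ) ≤ od W (1 - ξ ^ n) := by
  have h2 : (1 - ξ) * ∑ i ∈ Finset.range n, ξ ^ i = 1 - ξ ^ n := mul_neg_geom_sum ξ n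
  have h3 : 1 - ξ ≠ 0 := fun h => h1 (by rw [← h2, h, zero_mul])
  have h4 : ∑ i ∈ Finset.range n, ξ ^ i ≠ 0 := fun h => h1 (by rw [← h2, h, mul_zero])
  have h5 : W.valuation N (∑ i ∈ Finset.range n, ξ ^ i) ≤ 1 := by
    refine Valuation.map_sum_le _ (fun i _ => ?_)
    rw [map_pow]
    exact pow_le_one₀ zero_le hξ
  rw [← h2, od_mul W h3 h4]
  have h6 := (val_le_one_iff W h4).1 h5
  linarith

private theorem nrb_od {N : Type u} [Field N] [NumberField N] (W : HeightOneSpectrum (𝓞 N)) {ξ : N}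
    {ℓ : ℕ} (hξ : IsPrimitiveRoot ξ ℓ) (hℓ : ℓ.Prime) {i : ℕ} (hi : 0 < i) (hi' : i < ℓ) :
    od W (1 - ξ ^ i) = od W (1 - ξ) := by
  have hv : W.valuation N ξ = 1 := by
    have h1 : W.valuation N ξ ^ ℓ = 1 := by rw [← map_pow, hξ.pow_eq_one, map_one]
    exact (pow_eq_one_iff.1 h1).resolve_right hℓ.ne_zero
  have hi1 : ξ ^ i ≠ 1 := by
    intro h
    exact absurd ((hξ.pow_eq_one_iff_dvd i).1 h) (Nat.not_dvd_of_pos_of_lt hi hi')
  have hp : IsPrimitiveRoot (ξ ^ i) ℓ := by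
    refine hξ.pow_of_coprime i ?_
    rw [Nat.coprime_comm, hℓ.coprime_iff_not_dvd]
    exact Nat.not_dvd_of_pos_of_lt hi hi'
  have : NeZero ℓ := ⟨hℓ.ne_zero⟩
  obtain ⟨j, -, hj⟩ := hp.eq_pow_of_pow_eq_one hξ.pow_eq_one
  apply le_antisymm
  · have h2 : 1 - (ξ ^ i) ^ j ≠ 0 := by
      rw [hj]
      exact sub_ne_zero.2 (hξ.ne_one hℓ.one_lt).symm
    have h3 := nrb_le W (ξ := ξ ^ i) (by rw [map_pow, hv, one_pow]) j h2
    rwa [hj] at h3
  · exact nrb_le W hv.le i (sub_ne_zero.2 (Ne.symm hi1))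

private theorem nrb_place {N : Type u} [Field N] [NumberField N] [Algebra K N] {a : 𝓞 K}
    (ha : a ≠ 0) (hu : ¬ IsUnit a) : ∃ W : HeightOneSpectrum (𝓞 N),
      W.valuation N (algebraMap K N (a : K)) < 1 := by
  by_contra hcon
  push Not at hcon
  have ha' : (a : K) ≠ 0 := fun h => ha (by exact_mod_cast h)
  have ha0 : algebraMap K N (a : K) ≠ 0 := fun h => ha' ((map_eq_zero _).1 h)
  have hint : IsIntegral ℤ (algebraMap K N (a : K)) := (RingOfIntegers.isIntegral_coe a).algebraMap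
  have hle : ∀ W : HeightOneSpectrum (𝓞 N), W.valuation N (algebraMap K N (a : K)) ≤ 1 := by
    intro W
    obtain ⟨y, hy⟩ : ∃ y : 𝓞 N, (y : N) = algebraMap K N (a : K) := ⟨⟨_, hint⟩, rfl⟩
    rw [← hy]
    exact W.valuation_le_one y
  obtain ⟨x, hx⟩ := exists_unit_of_od ha0 (fun W => (val_eq_one_iff W ha0).1
    (le_antisymm (hle W) (hcon W)))
  apply hu
  have h1 : (((x⁻¹ : (𝓞 N)ˣ) : 𝓞 N) : N) = algebraMap K N ((a : K)⁻¹) := by
    have h2 : ((x : 𝓞 N) : N) * (((x⁻¹ : (𝓞 N)ˣ) : 𝓞 N) : N) = 1 := by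
      rw [← map_mul, ← Units.val_mul, mul_inv_cancel, Units.val_one, map_one]
    rw [map_inv₀, ← hx]
    exact eq_inv_of_mul_eq_one_right h2
  have h3 : IsIntegral ℤ ((a : K)⁻¹) := by
    have h4 : IsIntegral ℤ (algebraMap K N ((a : K)⁻¹)) := by
      rw [← h1]
      exact RingOfIntegers.isIntegral_coe _
    exact (isIntegral_algebraMap_iff (algebraMap K N).injective).1 h4
  obtain ⟨b, hb⟩ : ∃ b : 𝓞 K, (b : K) = (a : K)⁻¹ := ⟨⟨_, h3⟩, rfl⟩
  refine IsUnit.of_mul_eq_one b ?_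
  apply RingOfIntegers.ext
  change (a : K) * (b : K) = 1
  rw [hb, mul_inv_cancel₀ ha']

private theorem cop_one {a b : ℕ} (h : Nat.Coprime a b) (hd : a ∣ b) : a = 1 := by
  have h1 : Nat.gcd a b = a := Nat.gcd_eq_left hd
  rw [← h1]
  exact h

section
variable {k N : Type u} [Field k] [NumberField k] [Algebra K k] [Field N] [NumberField N]
  [Algebra K N] [Algebra k N] [IsScalarTower K k N] [DecidableEq N] [IsGalois k N]
  {ϖ : 𝓞 K} {ℓ : ℕ} (h : PD ϖ ℓ ℓ) {P : Pt N} (hF : Full k ϖ P) (hU : EP ℓ k)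
include h hF hU

/-- no roots of unity of order `ℓ` in the split case -/
theorem no_mu' {ζ : Nˣ} (hζ : ζ ^ ℓ = 1) : ζ = 1 := by
  have hℓ : ℓ.Prime := h.hl
  have h5 : 5 ≤ ℓ := h.five
  obtain ⟨ϖ', hϖ'⟩ := h.dvd
  have hndvd : ¬ ϖ ∣ ϖ' := by
    rintro ⟨c, hc⟩
    exact h.sq ⟨c, by rw [hϖ', hc]; ring⟩
  have hl0 : (ℓ : 𝓞 K) ≠ 0 := by exact_mod_cast hℓ.ne_zero
  have hϖ'0 : ϖ' ≠ 0 := fun h0 => hl0 (by rw [hϖ', h0, mul_zero])
  have hnorm : Ideal.absNorm (Ideal.span {ϖ'}) = ℓ := by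
    have h1 : Ideal.absNorm (Ideal.span {(ℓ : 𝓞 K)}) = ℓ ^ 2 := by
      rw [Ideal.absNorm_span_natCast, RingOfIntegers.rank, nrb_finrank]
    have h2 : Ideal.absNorm (Ideal.span {(ℓ : 𝓞 K)}) =
        Ideal.absNorm (Ideal.span {ϖ}) * Ideal.absNorm (Ideal.span {ϖ'}) := by
      rw [hϖ', ← map_mul, Ideal.span_singleton_mul_span_singleton]
    rw [h1, h.norm, pow_two] at h2
    exact (Nat.eq_of_mul_eq_mul_left hℓ.pos h2).symm
  have hnu : ¬ IsUnit ϖ' := by
    intro hu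
    rw [Ideal.span_singleton_eq_top.2 hu, Ideal.absNorm_top] at hnorm
    omega
  obtain ⟨W, hW⟩ := nrb_place (N := N) hϖ'0 hnu
  have hle : ∀ a : 𝓞 K, W.valuation N (algebraMap K N (a : K)) ≤ 1 := by
    intro a
    have hint : IsIntegral ℤ (algebraMap K N (a : K)) :=
      (RingOfIntegers.isIntegral_coe a).algebraMap
    obtain ⟨y, hy⟩ : ∃ y : 𝓞 N, (y : N) = algebraMap K N (a : K) := ⟨⟨_, hint⟩, rfl⟩
    rw [← hy]
    exact W.valuation_le_one y
  -- `ϖ` is a unit at `W`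
  have hWϖ : W.valuation N (algebraMap K N (ϖ : K)) = 1 := by
    by_contra hne
    have hlt : W.valuation N (algebraMap K N (ϖ : K)) < 1 := lt_of_le_of_ne (hle ϖ) hne
    obtain ⟨d, c, hc⟩ := h.inv hndvd
    have h1 : (1 : N) = algebraMap K N (ϖ' : K) * algebraMap K N (d : K) -
        algebraMap K N (ϖ : K) * algebraMap K N (c : K) := by
      have h2 : (1 : 𝓞 K) = ϖ' * d - ϖ * c := by rw [← hc]; ring
      have h3 := congrArg (fun x : 𝓞 K => algebraMap K N (x : K)) h2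
      simpa only [map_one, map_sub, map_mul] using h3
    have h2 : W.valuation N (1 : N) < 1 := by
      rw [h1]
      refine Valuation.map_sub_lt _ ?_ ?_
      · rw [map_mul]
        exact lt_of_le_of_lt (mul_le_of_le_one_right' (hle d)) hW
      · rw [map_mul]
        exact lt_of_le_of_lt (mul_le_of_le_one_right' (hle c)) hlt
    rw [map_one] at h2
    exact lt_irrefl _ h2
  -- `ℓ` is not a unit at `W`
  have hWℓ : W.valuation N (ℓ : N) < 1 := by
    have h1 : (ℓ : N) = algebraMap K N (ϖ : K) * algebraMap K N (ϖ' : K) := by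
      have h3 := congrArg (fun x : 𝓞 K => algebraMap K N (x : K)) hϖ'
      simpa only [map_natCast, map_mul] using h3
    rw [h1, map_mul, hWϖ, one_mul]
    exact hW
  have hram := unram (k := k) (F := N) h.prime hF.ord hF.gen W (h.bad_ell hWℓ) hWϖ
  obtain ⟨j, hod⟩ : ∃ j : ℕ, od W (ℓ : N) = (ℓ : ℤ) ^ j := by
    have h1 := od_map (k := k) W (ℓ : k)
    rw [map_natCast] at h1
    have h2 : (W.under (𝓞 k)).valuation k (ℓ : k) < 1 := by
      rw [← val_map_lt (k := k) W, map_natCast]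
      exact hWℓ
    obtain ⟨j, hj⟩ := hU _ h2
    exact ⟨j, by rw [h1, hram, hj]; simp⟩
  by_contra hne
  have hprim : IsPrimitiveRoot (ζ : N) ℓ := by
    have h1 : orderOf ζ = ℓ := by
      rcases (Nat.dvd_prime hℓ).1 (orderOf_dvd_of_pow_eq_one hζ) with h1 | h1
      · exact absurd (orderOf_eq_one_iff.1 h1) hne
      · exact h1
    have h2 := IsPrimitiveRoot.orderOf ζ
    rw [h1] at h2
    exact IsPrimitiveRoot.coe_units_iff.2 h2
  obtain ⟨n, rfl⟩ : ∃ n, ℓ = n + 1 := ⟨ℓ - 1, by omega⟩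
  have hprod := hprim.prod_one_sub_pow_eq_order
  have hsum : od W (((n + 1 : ℕ) : N)) = n * od W (1 - (ζ : N)) := by
    have h1 : ((n + 1 : ℕ) : N) = ∏ i ∈ Finset.range n, (1 - (ζ : N) ^ (i + 1)) := by
      rw [hprod]
      push_cast
      rfl
    rw [h1, od_prod W _ _ (fun i hi => ?_)]
    · rw [Finset.sum_congr rfl (fun i hi => nrb_od W hprim hℓ (Nat.succ_pos i)
        (by rw [Finset.mem_range] at hi; omega))]
      simp
    · rw [Finset.mem_range] at hi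
      refine sub_ne_zero.2 (fun h1 => ?_)
      exact absurd ((hprim.pow_eq_one_iff_dvd (i + 1)).1 h1.symm)
        (Nat.not_dvd_of_pos_of_lt (Nat.succ_pos i) (by omega))
  rw [hod] at hsum
  have h6 : (n : ℤ) ∣ (((n + 1) ^ j : ℕ) : ℤ) := ⟨_, by push_cast; push_cast at hsum; exact hsum⟩
  have h8 : n ∣ (n + 1) ^ j := Int.natCast_dvd_natCast.1 h6
  have h9 : Nat.Coprime n ((n + 1) ^ j) := Nat.Coprime.pow_right j (by simp)
  have h10 : n = 1 := cop_one h9 h8
  omega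

end

section
variable {F F' N N' : Type u} [Field F] [NumberField F] [Algebra K F]
  [Field F'] [NumberField F'] [Algebra K F'] [Algebra F F'] [IsScalarTower K F F'] [IsGalois F F']
  [Field N] [NumberField N] [Algebra K N] [Algebra F N] [IsScalarTower K F N] [DecidableEq N]
  [IsGalois F N] [Field N'] [NumberField N'] [Algebra K N'] [Algebra F' N'] [IsScalarTower K F' N']
  [DecidableEq N'] [IsGalois F' N'] [Algebra F N'] [IsScalarTower F F' N'] [IsScalarTower K F N']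
  [IsGalois F N'] [Algebra N N'] [IsScalarTower K N N'] [IsScalarTower F N N'] [IsGalois N N']
  {ϖ : 𝓞 K} {ℓ q : ℕ} (h : PD ϖ ℓ q) {P : Pt N} {P' : Pt N'} (hS : Sq F F' ϖ ℓ P P')
include h hS

theorem nm_one' (hU : EP ℓ F') {γ : Gal(N'/N)} (hγ : γ ^ ℓ = 1) {a b : N'ˣ}
    (ha : Iso F' ℓ P' a) (hab : sg γ a = a * b ^ ℓ) : nmg γ ℓ b = 1 := by
  have hz : nmg γ ℓ b ^ ℓ = 1 := nm_pow hγ hab
  rcases h.alt with hq | hq
  · subst hq
    exact no_mu' h hS.full' hU hz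
  · by_contra hne
    obtain ⟨A, hA⟩ := ha
    have hall : ∀ c : 𝓞 K, ¬ ϖ ∣ c → ∃ ε : N'ˣ, nrcRel γ ℓ (A c) ε ∧ ε ^ ℓ = 1 ∧ ε ≠ 1 := by
      intro c hc
      obtain ⟨σ, hσ⟩ := hS.full'.all c hc
      refine ⟨sg σ (nmg γ ℓ b), ⟨sg σ a, sg σ b, hA σ c hσ, ?_, nmg_sg h hS γ σ b⟩, ?_, ?_⟩
      · have h1 : sg γ (sg σ a) = sg σ (sg γ a) := by
          apply Units.ext
          rw [sg_coe, sg_coe, sg_coe, sg_coe]
          exact (comm h hS γ σ (a : N')).symm
        rw [h1, hab, sg_mul, sg_pow]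
      · rw [← sg_pow, hz]
        exact map_one _
      · intro h1
        apply hne
        apply Units.ext
        have h2 := congrArg (fun u : N'ˣ => (u : N')) h1
        have h3 : σ ((nmg γ ℓ b : N'ˣ) : N') = σ 1 := by
          rw [map_one]
          exact h2
        exact σ.injective h3
    choose! f hf using hall
    obtain ⟨T, hT, hc⟩ := exists_isRes h.prime.ne_zero
    have hle : T.card ≤ ℓ := by
      refine nrc_card h.hl.pos T f (fun c hcT => (hf c (hT.nz c hcT)).2.1) ?_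
      intro c hcT d hdT hcd
      by_contra hne'
      have hnd : ¬ ϖ ∣ c - d := fun h1 => hne' (hT.uniq c hcT d hdT h1)
      have h1 := nrcRel_sub (hf c (hT.nz c hcT)).1 (hf d (hT.nz d hdT)).1
      have h2 : A (c - d) = A c - A d := eq_sub_of_add_eq (by rw [← map_add, sub_add_cancel])
      rw [hcd, mul_inv_cancel, ← h2] at h1
      exact (hf (c - d) hnd).2.2 (nrcRel_unique h.hl hγ (hf (c - d) hnd).1 h1)
    rw [h.norm, hq] at hc
    have h5 := h.five
    nlinarith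

end

end Pool.Agent.Lib.MP_1a91b9_nuW.DS
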