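import Pool.Agent.Lib.MP_1a91b9_nuX.DX.Kum
import Pool.Agent.Lib.MP_1a91b9_nuX.DX.Ex
import Pool.Agent.Lib.MP_1a91b9_nuW.W.Ram
import Pool.Agent.Lib.MP_1a91b9_nuW.W.PL

/-!
# Descent of local `ℓ`-th powers in the square of the tower
-/

set_option autoImplicit false
set_option linter.unusedSectionVars false

namespace Pool.Agent.Lib.MP_1a91b9_nuW.DS

open NumberField IsDedekindDomain WeierstrassCurve Pool.Agent.Lib.MP_1a91b9_nuT
open Pool.Agent.Lib.MP_1a91b9_nuX Pool.Agent.Lib.MP_1a91b9_nuX.DB Pool.Agent.Lib.MP_1a91b9_nuX.DX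
open Pool.Agent.Lib.MP_1a91b9_nuW.W

variable [CD]

universe u

/-- the group theory of the step -/
theorem pl_desc {N N' M : Type u} [Field N] [NumberField N] [Field N'] [NumberField N']
    [Field M] [NumberField M] [Algebra N N'] [Algebra N M] [Algebra N' M] [IsScalarTower N N' M]
    [IsGalois N N'] [IsGalois N M] {ℓ : ℕ} (hℓ : ℓ.Prime) (V : HeightOneSpectrum (𝓞 M))
    {ζ β : M} {y : N} (hy : y ≠ 0) (hζ : IsPrimitiveRoot ζ ℓ) (hβ : β ^ ℓ = algebraMap N M y)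
    (hfix : ∀ σ : Gal(M/N'), gpl σ V = V → σ β = β) {τ : Gal(M/N')} (hτV : gpl τ V = V)
    (hτ : τ ζ ≠ ζ) (σ : Gal(M/N)) (hσ : gpl σ V = V) : σ β = β := by
  have hy' : algebraMap N M y ≠ 0 := (map_ne_zero _).2 hy
  have hβ0 : β ≠ 0 := by
    rintro rfl
    rw [zero_pow hℓ.ne_zero] at hβ
    exact hy' hβ.symm
  have h1 : (σ β) ^ ℓ = algebraMap N M y := by rw [← map_pow, hβ, AlgEquiv.commutes]
  obtain ⟨j, hj⟩ := root_eq hℓ.pos hζ hy' hβ h1
  -- the conjugate of `τ`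
  obtain ⟨ρ, hρ⟩ : ∃ ρ : Gal(M/N'), ∀ x : M, ρ x = σ⁻¹ (τ (σ x)) := by
    have hc : ∀ x : N', (σ⁻¹ * tof N τ * σ).toRingEquiv (algebraMap N' M x) =
        algebraMap N' M x := by
      intro x
      have h2 : rsn N' (σ⁻¹ * tof N τ * σ) = 1 := by
        rw [rsn_mul, rsn_mul, rsn_tof, rsn_inv, mul_one, inv_mul_cancel]
      have h3 := rsn_apply (N := N') (σ⁻¹ * tof N τ * σ) x
      rw [h2] at h3
      exact h3.symm
    exact ⟨AlgEquiv.ofRingEquiv (f := (σ⁻¹ * tof N τ * σ).toRingEquiv) hc, fun x => rfl⟩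
  have hρV : gpl ρ V = V := by
    have e : gpl ρ V = gpl (σ⁻¹ * tof N τ * σ) V := by
      apply HeightOneSpectrum.ext
      ext x
      change ρ⁻¹ • x ∈ V.asIdeal ↔ (σ⁻¹ * tof N τ * σ)⁻¹ • x ∈ V.asIdeal
      have e2 : ρ⁻¹ • x = (σ⁻¹ * tof N τ * σ)⁻¹ • x := by
        apply RingOfIntegers.ext
        change ρ⁻¹ (x : M) = (σ⁻¹ * tof N τ * σ)⁻¹ (x : M)
        apply ρ.injective
        have e3 : ρ (ρ⁻¹ (x : M)) = x := ρ.apply_symm_apply _
        rw [e3, hρ]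
        have e4 : (σ⁻¹ * tof N τ * σ) ((σ⁻¹ * tof N τ * σ)⁻¹ (x : M)) = x := by
          rw [← AlgEquiv.mul_apply, mul_inv_cancel]
          rfl
        exact e4.symm
      rw [e2]
    have hσ' : gpl σ⁻¹ V = V := by
      have h2 : gpl (σ⁻¹ * σ) V = V := by rw [inv_mul_cancel, gpl_one]
      rwa [gpl_mul, hσ] at h2
    rw [e, gpl_mul, gpl_mul, hσ]
    have h3 : gpl (tof N τ) V = V := hτV
    rw [h3, hσ']
  have h2 := hfix ρ hρV
  rw [hρ] at h2
  have h3 : τ (σ β) = σ β := by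
    have h4 := congrArg σ h2
    rw [← AlgEquiv.mul_apply, mul_inv_cancel] at h4
    exact h4
  -- `τ` fixes `ζ ^ j`
  have h4 : τ (ζ ^ j) = ζ ^ j := by
    rw [hj, map_mul, hfix τ hτV] at h3
    exact mul_right_cancel₀ hβ0 h3
  have h5 : ℓ ∣ j := by
    by_contra hn
    apply hτ
    have hc : Nat.Coprime j ℓ := ((Nat.Prime.coprime_iff_not_dvd hℓ).2 hn).symm
    have h6 : IsPrimitiveRoot (ζ ^ j) ℓ := hζ.pow_of_coprime j hc
    have : NeZero ℓ := ⟨hℓ.ne_zero⟩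
    obtain ⟨i, -, hi⟩ := h6.eq_pow_of_pow_eq_one hζ.pow_eq_one
    rw [← hi, map_pow, h4]
  rw [hj, (hζ.pow_eq_one_iff_dvd j).2 h5, one_mul]

variable [HC]

section
variable {F N N₂ L : Type u} [Field F] [NumberField F] [Algebra K F] [Field N] [NumberField N]
  [Algebra K N] [Field N₂] [NumberField N₂] [Algebra K N₂] [Field L] [NumberField L] [Algebra K L]
  [Algebra F N] [Algebra F N₂] [Algebra F L] [Algebra N L] [Algebra N₂ L]
  [IsScalarTower K F N] [IsScalarTower K F N₂] [IsScalarTower K F L] [IsScalarTower K N L]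
  [IsScalarTower K N₂ L] [IsScalarTower F N L] [IsScalarTower F N₂ L]
  [DecidableEq F] [DecidableEq N] [DecidableEq N₂] [DecidableEq L]
  [IsGalois F N] [IsGalois F N₂] [IsGalois F L]
  {ϖ : 𝓞 K} {ℓ q : ℕ} {P : Pt F} {P₀ : Pt N} {P₂ : Pt N₂} {ζ : L} {Q : Pt L}
  (D : TD ϖ ℓ q P P₀ P₂ ζ Q)
include D

/-- the decomposition group moves the roots of unity -/
theorem td_na (W : HeightOneSpectrum (𝓞 L)) (hb : W.valuation L (bD L) = 1)
    (hW : W.valuation L (algebraMap K L (cj ϖ : K)) = 1)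
    (hna : ¬ cj ϖ ∣ psi N (W.under (𝓞 N)).asIdeal - 1) :
    ∃ τ : Gal(L/N), gpl τ W = W ∧ τ ζ ≠ ζ := by
  have iG : IsGalois N L := IsGalois.tower_top_of_isGalois F N L
  obtain ⟨τ, hτF, hτW⟩ := exists_frobW (k := N) W
  have hτ : ga τ (up L P₂) = sm L (psi N (W.under (𝓞 N)).asIdeal) (up L P₂) :=
    frob (k := N) W hb τ hτF hW (((ord_up L).2 D.full₂.ord (cj ϖ)).2 dvd_rfl)
  refine ⟨τ, hτW, fun h1 => hna ?_⟩
  have h2 := D.chi_N τ hτ (x := 1) (by rw [pow_one]; exact h1)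
  have h3 := (dvd_neg).2 h2
  push_cast at h3
  rwa [neg_sub] at h3

end

/-- descent of local `ℓ`-th powers -/
theorem pl_step {F' N N' : Type u} [Field F'] [NumberField F'] [Algebra K F']
    [Field N] [NumberField N] [Algebra K N] [Field N'] [NumberField N'] [Algebra K N']
    [DecidableEq N'] [Algebra F' N'] [IsScalarTower K F' N'] [IsGalois F' N']
    [Algebra N N'] [IsScalarTower K N N'] [IsGalois N N']
    {ϖ : 𝓞 K} {ℓ q : ℕ} (h : PD ϖ ℓ q) (hcop : IsCoprime ϖ (cj ϖ)) (hE : EP ℓ F') {P' : Pt N'}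
    (hF : Full F' ϖ P') (W : HeightOneSpectrum (𝓞 N'))
    (hW : W.valuation N' (algebraMap K N' (ϖ : K)) < 1)
    (hna : ¬ cj ϖ ∣ psi N' W.asIdeal - 1) {y : N} (hy : y ≠ 0)
    (hpl : PL ℓ W (algebraMap N N' y)) : PL ℓ (W.under (𝓞 N)) y := by
  classical
  have hℓ := h.hl
  obtain ⟨N₂, iM1, iM2, iM3, iM4, iM5, iM6, iM7, P₂, hP₂⟩ := exists_full' (pd_cj h) F' hE
  obtain ⟨L, iL1, iL2, iL3, iL4, iL5, iL6, iL7, iL8, iL9, iL10, iL11, iL12, iL13, ζ, Q, D⟩ :=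
    exists_TD h hF hP₂ (0 : Pt F')
  have iG : IsGalois N' L := IsGalois.tower_top_of_isGalois F' N' L
  obtain ⟨M, j1, j2, j3, j4, j4', j5, j6, j6', j7, hG, ζ', α, β', hζ', hα, -⟩ :=
    exists_comp N N' N' L hℓ.pos (algebraMap N N' y) 0
  have e3 : j4 = j4' := Algebra.algebra_ext _ _ fun r =>
    @IsScalarTower.algebraMap_apply N' N' M _ _ _ (Algebra.id N') j4' j4 j6' r
  subst e3
  have iG' : IsGalois N' M := IsGalois.tower_top_of_isGalois N N' M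
  obtain ⟨V, hV⟩ := over_exists (L := M) W
  have hy' : algebraMap N N' y ≠ 0 := (map_ne_zero _).2 hy
  obtain ⟨β, hβ1, hβ2⟩ := hpl.use hℓ.pos hy' V hV hζ' hα
  -- the element of the decomposition group
  have hV0 : (V.under (𝓞 L)).under (𝓞 N') = W := by rw [under_under, hV]
  have hbW : (V.under (𝓞 L)).valuation L (bD L) = 1 := by
    have e : bD L = algebraMap N' L (bD N') := (map_intCast _ _).symm
    rw [e, val_map_eq, hV0]
    exact h.bad_pi hW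
  have hnd : ¬ ϖ ∣ cj ϖ := fun e => h.prime.not_isUnit (hcop.isUnit_of_dvd' dvd_rfl e)
  have hcW : (V.under (𝓞 L)).valuation L (algebraMap K L (cj ϖ : K)) = 1 := by
    rw [IsScalarTower.algebraMap_apply K N' L, val_map_eq, hV0]
    exact pd_val_coprime h hW hnd
  obtain ⟨τ₀, hτ₀V, hτ₀⟩ := td_na D (V.under (𝓞 L)) hbW hcW (by rw [hV0]; exact hna)
  obtain ⟨τ, hτr, hτV⟩ := lift_dec (F := N') (N := L) (L := M) V τ₀ hτ₀V
  have hζM : IsPrimitiveRoot (algebraMap L M ζ) ℓ :=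
    D.zeta.map_of_injective (algebraMap L M).injective
  have hτζ : τ (algebraMap L M ζ) ≠ algebraMap L M ζ := by
    rw [← rsn_apply, hτr]
    intro e
    exact hτ₀ ((algebraMap L M).injective e)
  have hβN : β ^ ℓ = algebraMap N M y := by
    rw [hβ1, ← IsScalarTower.algebraMap_apply N N' M]
  refine ⟨M, j1, j2, j3, hG, V, β, ?_, hβN, ?_⟩
  · rw [← hV, under_under]
  · exact fun σ hσ => pl_desc (N' := N') hℓ V hy hζM hβN hβ2 hτV hτζ σ hσ

end Pool.Agent.Lib.MP_1a91b9_nuW.DS
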