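import Pool.Agent.Lib.MP_1a91b9_nuW.DS.Defs

/-!
# The group `VW` and the automorphisms of the square; a fixed class
-/

set_option autoImplicit false
set_option linter.unusedSectionVars false

namespace Pool.Agent.Lib.MP_1a91b9_nuW.DS

open NumberField IsDedekindDomain WeierstrassCurve Pool.Agent.Lib.MP_1a91b9_nuT
open Pool.Agent.Lib.MP_1a91b9_nuX Pool.Agent.Lib.MP_1a91b9_nuX.DB Pool.Agent.Lib.MP_1a91b9_nuX.DX
open Pool.Agent.Lib.MP_1a91b9_nuX.DS
open Pool.Agent.Lib.MP_1a91b9_nuW.W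

variable [CD]

universe u

section
variable {k N : Type u} [Field k] [NumberField k] [Algebra K k] [Field N] [NumberField N]
  [Algebra K N] [Algebra k N] [IsScalarTower K k N] [DecidableEq N]
  {ϖ : 𝓞 K} {ℓ q : ℕ} (h : PD ϖ ℓ q) {P : Pt N} (hF : Full k ϖ P)
include h hF

theorem vw_mul {a b : Nˣ} (ha : VW k ϖ ℓ P a) (hb : VW k ϖ ℓ P b) : VW k ϖ ℓ P (a * b) where
  od := by
    intro w
    rw [Units.val_mul, od_mul w a.ne_zero b.ne_zero]
    exact dvd_add (ha.od w) (hb.od w)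
  iso := Iso.mul h hF ha.iso hb.iso
  loc := by
    intro w hw h1
    rw [Units.val_mul]
    exact wloc_mul (ha.loc w hw h1) (hb.loc w hw h1)
  pl := by
    intro w hw h1
    rw [Units.val_mul]
    exact (ha.pl w hw h1).mul h.hl.pos a.ne_zero b.ne_zero (hb.pl w hw h1)

theorem vw_inv {a : Nˣ} (ha : VW k ϖ ℓ P a) : VW k ϖ ℓ P a⁻¹ where
  od := by
    intro w
    rw [Units.val_inv_eq_inv_val, od_inv]
    exact (ha.od w).neg_right
  iso := Iso.inv h hF ha.iso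
  loc := by
    intro w hw h1
    rw [Units.val_inv_eq_inv_val]
    exact wloc_inv (ha.loc w hw h1)
  pl := by
    intro w hw h1
    rw [Units.val_inv_eq_inv_val]
    exact (ha.pl w hw h1).inv

end

section
variable {F F' N N' : Type u} [Field F] [NumberField F] [Algebra K F]
  [Field F'] [NumberField F'] [Algebra K F'] [Algebra F F'] [IsScalarTower K F F'] [IsGalois F F']
  [Field N] [NumberField N] [Algebra K N] [Algebra F N] [IsScalarTower K F N] [DecidableEq N]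
  [IsGalois F N] [Field N'] [NumberField N'] [Algebra K N'] [Algebra F' N'] [IsScalarTower K F' N']
  [DecidableEq N'] [IsGalois F' N'] [Algebra F N'] [IsScalarTower F F' N'] [IsScalarTower K F N']
  [IsGalois F N'] [Algebra N N'] [IsScalarTower K N N'] [IsScalarTower F N N'] [IsGalois N N']
  {ϖ : 𝓞 K} {ℓ q : ℕ} (h : PD ϖ ℓ q) {P : Pt N} {P' : Pt N'} (hS : Sq F F' ϖ ℓ P P')
include h hS

/-- `Gal(N'/N)` does not move the place of `F'` up to conjugation: the order of `ℓ` is the same -/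
theorem od_gamma (γ : Gal(N'/N)) (w : HeightOneSpectrum (𝓞 N')) :
    od ((gpl γ w).under (𝓞 F')) (ℓ : F') = od (w.under (𝓞 F')) (ℓ : F') := by
  have e1 : (gpl γ w).under (𝓞 F') =
      gpl (rsn F' (tof F γ)) (w.under (𝓞 F')) := by
    rw [← gpl_rsn]
    rfl
  have e2 : (ℓ : F') = (rsn F' (tof F γ)) (ℓ : F') := (map_natCast _ _).symm
  rw [e1]
  nth_rewrite 1 [e2]
  exact gpl_od _ _ _

theorem vw_gamma (γ : Gal(N'/N)) {y : N'ˣ} (hy : VW F' ϖ ℓ P' y) : VW F' ϖ ℓ P' (sg γ y) := by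
  have hback : ∀ w : HeightOneSpectrum (𝓞 N'), gpl γ (gpl γ⁻¹ w) = w := by
    intro w
    rw [← gpl_mul, mul_inv_cancel, gpl_one]
  have e1 : γ (algebraMap K N' (ϖ : K)) = algebraMap K N' (ϖ : K) := by
    rw [IsScalarTower.algebraMap_apply K N N', AlgEquiv.commutes]
  have e2 : ∀ w : HeightOneSpectrum (𝓞 N'), w.valuation N' (algebraMap K N' (ϖ : K)) < 1 →
      (gpl γ⁻¹ w).valuation N' (algebraMap K N' (ϖ : K)) < 1 := by
    intro w hw
    rw [← gpl_val γ, hback w, e1]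
    exact hw
  refine ⟨fun w => ?_, ?_, fun w hw h1 => ?_, fun w hw h1 => ?_⟩
  · rw [sg_coe, ← hback w, gpl_od]
    exact hy.od _
  · obtain ⟨A, hA⟩ := hy.iso
    refine ⟨(elm ℓ (Units.map (γ : N' →* N'))).comp A, fun σ c hc => ?_⟩
    have e1 : sg σ (sg γ y) = sg γ (sg σ y) := by
      refine Units.ext ?_
      rw [sg_coe, sg_coe, sg_coe, sg_coe]
      exact comm h hS γ σ _
    rw [e1, AddMonoidHom.comp_apply, ← hA σ c hc, elm_el]
    rfl
  · have e3 := wloc_gpl γ (hy.loc _ (e2 w hw) (by rw [od_gamma h hS]; exact h1))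
    rw [hback w] at e3
    exact e3
  · have e3 := (hy.pl _ (e2 w hw) (by rw [od_gamma h hS]; exact h1)).gpl γ
    rw [hback w] at e3
    exact e3

theorem exists_fixed' {γ : Gal(N'/N)} (hγ : γ ^ ℓ = 1) {y : N'ˣ} (hy : VW F' ϖ ℓ P' y)
    (hn : ¬ ∃ z : N'ˣ, y = z ^ ℓ) : ∃ a b : N'ˣ, VW F' ϖ ℓ P' a ∧ (¬ ∃ z : N'ˣ, a = z ^ ℓ) ∧
      sg γ a = a * b ^ ℓ := by
  have h1 : ∀ (n : ℕ) (a : N'ˣ),
      (elm ℓ (Units.map (γ : N' →* N')) : El ℓ N' → El ℓ N')^[n] (el ℓ a) =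
        el ℓ (sg (γ ^ n) a) := by
    intro n
    induction n with
    | zero =>
      intro a
      rw [Function.iterate_zero, pow_zero]
      rfl
    | succ n ih =>
      intro a
      rw [Function.iterate_succ, Function.comp_apply, elm_el, ih, pow_succ]
      rfl
  obtain ⟨z, ⟨a, ha, rfl⟩, hz0, hgz⟩ := nilp h.hl (nsmul_el (ℓ := ℓ) (F := N'))
    (elm ℓ (Units.map (γ : N' →* N')))
    (by
      intro x
      obtain ⟨a, rfl⟩ := el_surj x
      rw [h1, hγ]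
      rfl) {z | ∃ a : N'ˣ, VW F' ϖ ℓ P' a ∧ el ℓ a = z}
    (by
      rintro _ ⟨a, ha, rfl⟩
      refine ⟨sg γ a * a⁻¹, vw_mul h hS.full' (vw_gamma h hS γ ha) (vw_inv h hS.full' ha), ?_⟩
      rw [el_mul, el_inv, elm_el, sub_eq_add_neg]
      rfl) ⟨y, hy, rfl⟩ (fun h0 => hn (el_eq_zero.1 h0))
  rw [elm_el] at hgz
  obtain ⟨b, hb⟩ := el_eq.1 hgz
  exact ⟨a, b, ha, fun h0 => hz0 (el_eq_zero.2 h0), hb⟩

end

end Pool.Agent.Lib.MP_1a91b9_nuW.DS
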