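import Pool.Agent.Lib.MP_1a91b9_nuX.DS.Tower
import Pool.Agent.Lib.MP_1a91b9_nuT.PT.Tow
import Pool.Agent.Lib.MP_1a91b9_nuW.DS.Nrm
import Pool.Agent.Lib.MP_1a91b9_nuW.DS.Sel
import Pool.Agent.Lib.MP_1a91b9_nuW.DS.Pl

/-!
# The induction step of the tower with ramification above `ℓ` at places which are not anomalous
-/

set_option autoImplicit false
set_option linter.unusedSectionVars false

namespace Pool.Agent.Lib.MP_1a91b9_nuW.DS

open NumberField IsDedekindDomain WeierstrassCurve Pool.Agent.Lib.MP_1a91b9_nuT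
open Pool.Agent.Lib.MP_1a91b9_nuX Pool.Agent.Lib.MP_1a91b9_nuX.DB Pool.Agent.Lib.MP_1a91b9_nuX.DX
open Pool.Agent.Lib.MP_1a91b9_nuX.DS
open Pool.Agent.Lib.MP_1a91b9_nuW.W

variable [CD]

universe u

variable [HC]

/-- the ramification index and the inertia degree divide the degree -/
theorem ram_dvd (k L : Type u) [Field k] [NumberField k] [Field L] [NumberField L]
    [Algebra k L] [IsGalois k L] (W : HeightOneSpectrum (𝓞 L)) :
    W.asIdeal.ramificationIdx (𝓞 k) ∣ Module.finrank k L ∧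
      W.asIdeal.inertiaDeg (𝓞 k) ∣ Module.finrank k L := by
  have i1 : (W.under (𝓞 k)).asIdeal.IsPrime := (W.under (𝓞 k)).isPrime
  have i1m : (W.under (𝓞 k)).asIdeal.IsMaximal := (W.under (𝓞 k)).isMaximal
  have i2 : W.asIdeal.IsPrime := W.isPrime
  have i3 : W.asIdeal.LiesOver (W.under (𝓞 k)).asIdeal := ⟨rfl⟩
  have hfund := Ideal.ncard_primesOver_mul_ramificationIdxIn_mul_inertiaDegIn
    (W.under (𝓞 k)).asIdeal (𝓞 L) Gal(L/k)
  rw [IsGalois.card_aut_eq_finrank, Ideal.ramificationIdxIn_eq_ramificationIdx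
    (W.under (𝓞 k)).asIdeal W.asIdeal Gal(L/k), Ideal.inertiaDegIn_eq_inertiaDeg
    (W.under (𝓞 k)).asIdeal W.asIdeal Gal(L/k)] at hfund
  rw [← hfund]
  exact ⟨(Dvd.intro _ rfl).mul_left _, (Dvd.intro_left _ rfl).mul_left _⟩

/-- the order of `ℓ` in an extension -/
theorem od_ell (k L : Type u) [Field k] [NumberField k] [Field L] [NumberField L]
    [Algebra k L] (ℓ : ℕ) (W : HeightOneSpectrum (𝓞 L)) :
    od W (ℓ : L) = (W.asIdeal.ramificationIdx (𝓞 k) : ℤ) * od (W.under (𝓞 k)) (ℓ : k) := by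
  have h1 := od_map (k := k) W (ℓ : k)
  rwa [map_natCast] at h1

section
variable {F F' : Type u} [Field F] [NumberField F] [Algebra K F]
  [Field F'] [NumberField F'] [Algebra K F'] [Algebra F F'] [IsScalarTower K F F'] [IsGalois F F']
  {ℓ : ℕ} (hℓ : ℓ.Prime) (hd : Module.finrank F F' = ℓ)
include hℓ hd

theorem ep_step (hE : EP ℓ F) : EP ℓ F' := by
  intro v hv
  have h1 : (v.under (𝓞 F)).valuation F (ℓ : F) < 1 := by
    rw [← val_map_lt, map_natCast]
    exact hv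
  obtain ⟨k, hk⟩ := hE _ h1
  rw [od_ell F F' ℓ v, hk]
  rcases (Nat.dvd_prime hℓ).1 (hd ▸ (ram_dvd F F' v).1) with h2 | h2
  · exact ⟨k, by rw [h2, Nat.cast_one, one_mul]⟩
  · exact ⟨k + 1, by rw [h2, pow_succ, mul_comm]⟩

theorem cop_up (v : HeightOneSpectrum (𝓞 F'))
    (h : IsCoprime (psi F (v.under (𝓞 F)).asIdeal - 1) (ℓ : 𝓞 K)) :
    IsCoprime (psi F' v.asIdeal - 1) (ℓ : 𝓞 K) := by
  rw [psi_up (F := F) v]
  exact PT.cop_pow hℓ h (hd ▸ (ram_dvd F F' v).2)

theorem na_step (hNA : NA ℓ F)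
    (ha : ∀ v : HeightOneSpectrum (𝓞 F'), v.asIdeal.ramificationIdx (𝓞 F) ≠ 1 →
      IsCoprime (psi F (v.under (𝓞 F)).asIdeal - 1) (ℓ : 𝓞 K)) : NA ℓ F' := by
  intro v hv hne
  refine cop_up hℓ hd v ?_
  by_cases he : v.asIdeal.ramificationIdx (𝓞 F) = 1
  · refine hNA _ ?_ ?_
    · rw [← val_map_lt, map_natCast]
      exact hv
    · intro h1
      apply hne
      rw [od_ell F F' ℓ v, he, h1]
      norm_num
  · exact ha v he

end

/-- `cj ϖ` does not divide `x - 1` if `x - 1` is prime to `ℓ` -/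
theorem not_dvd_of_cop {ϖ : 𝓞 K} {ℓ q : ℕ} (h : PD ϖ ℓ q) {x : 𝓞 K}
    (hx : IsCoprime (x - 1) (ℓ : 𝓞 K)) : ¬ ϖ ∣ x - 1 :=
  fun hd => h.prime.not_isUnit (hx.isUnit_of_dvd' hd h.dvd)

/-- `ψ` at the places above `ϖ` of the field of the points killed by `ϖ` -/
theorem na_N {F N : Type u} [Field F] [NumberField F] [Algebra K F] [Field N] [NumberField N]
    [Algebra K N] [Algebra F N] [IsScalarTower K F N] [DecidableEq N] [IsGalois F N]
    {ϖ : 𝓞 K} {ℓ q : ℕ} (h : PD ϖ ℓ q) (hE : EP ℓ F) {P : Pt N} (hF : Full F ϖ P)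
    (w : HeightOneSpectrum (𝓞 N)) (hw : w.valuation N (algebraMap K N (ϖ : K)) < 1)
    (hna : IsCoprime (psi F (w.under (𝓞 F)).asIdeal - 1) (ℓ : 𝓞 K)) :
    ¬ cj ϖ ∣ psi N w.asIdeal - 1 := by
  obtain ⟨-, hf, -⟩ := ramN h hE hF w hw
  rw [psi_up (F := F) w, hf, pow_one]
  exact not_dvd_of_cop (pd_cj h) hna

section
variable {F F' N N' : Type u} [Field F] [NumberField F] [Algebra K F]
  [Field F'] [NumberField F'] [Algebra K F'] [Algebra F F'] [IsScalarTower K F F'] [IsGalois F F']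
  [Field N] [NumberField N] [Algebra K N] [Algebra F N] [IsScalarTower K F N] [DecidableEq N]
  [IsGalois F N] [Field N'] [NumberField N'] [Algebra K N'] [Algebra F' N'] [IsScalarTower K F' N']
  [DecidableEq N'] [IsGalois F' N'] [Algebra F N'] [IsScalarTower F F' N'] [IsScalarTower K F N']
  [IsGalois F N'] [Algebra N N'] [IsScalarTower K N N'] [IsScalarTower F N N'] [IsGalois N N']
  {ϖ : 𝓞 K} {ℓ q : ℕ} (h : PD ϖ ℓ q) {P : Pt N} {P' : Pt N'} (hS : Sq F F' ϖ ℓ P P')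
  (hcop : IsCoprime ϖ (cj ϖ)) (hE : EP ℓ F) (hE' : EP ℓ F')
  (ha : ∀ v : HeightOneSpectrum (𝓞 F'), v.asIdeal.ramificationIdx (𝓞 F) ≠ 1 →
    IsCoprime (psi F (v.under (𝓞 F)).asIdeal - 1) (ℓ : 𝓞 K))
  (hDT : DT ϖ F)
include h hS

include hE ha hDT in
theorem od_step' {a z : N'ˣ} {a1 : Nˣ}
    (hod : ∀ W : HeightOneSpectrum (𝓞 N'), (ℓ : ℤ) ∣ od W (a : N'))
    (hi : Iso F ℓ P a1) (h1 : inU N N' a1 = a * z ^ ℓ) (w : HeightOneSpectrum (𝓞 N)) :
    (ℓ : ℤ) ∣ od w (a1 : N) := by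
  obtain ⟨W, hW⟩ := over_exists (L := N') w
  rcases ram_cases h hS W with hr | hr
  · have e1 := od_map W (a1 : N)
    rw [hr, hW] at e1
    have e2 : algebraMap N N' (a1 : N) = (a : N') * (z : N') ^ ℓ := by
      have e3 := congrArg (fun u : N'ˣ => (u : N')) h1
      simpa [inU_coe] using e3
    rw [e2, od_mul _ a.ne_zero (pow_ne_zero _ z.ne_zero), od_pow] at e1
    obtain ⟨m, hm⟩ := hod W
    refine ⟨m + od W (z : N'), ?_⟩
    rw [hm] at e1
    push_cast at e1
    linarith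
  · have key : ∃ σ : Gal(N/F), σ ≠ 1 ∧ gpl σ w = w := by
      by_cases h3 : w.valuation N (bD N) < 1
      · exact hDT N P hS.full w h3
      · have h3' : w.valuation N (bD N) = 1 :=
          le_antisymm (v_int_le (w.valuation N) _) (not_lt.1 h3)
        have hv : w.under (𝓞 F) = (W.under (𝓞 F')).under (𝓞 F) := by
          rw [← hW, under_under, under_under]
        have hc := ha (W.under (𝓞 F')) hr
        rw [← hv] at hc
        by_cases hp : w.valuation N (algebraMap K N (ϖ : K)) < 1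
        · obtain ⟨-, -, hg⟩ := ramN h hE hS.full w hp
          have h5 := h.q_five
          have hcard := Full.card h hS.full
          have hn : 1 < Nat.card Gal(N/F) := by
            rw [IsGalois.card_aut_eq_finrank F N]
            omega
          have := Finite.one_lt_card_iff_nontrivial.1 hn
          obtain ⟨σ, hσ1⟩ := exists_ne (1 : Gal(N/F))
          exact ⟨σ, hσ1, hg σ⟩
        · exact decomp_pi hS.full w h3' (le_antisymm (v_alg_le (w.valuation N) _) (not_lt.1 hp))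
            (not_dvd_of_cop h hc)
    obtain ⟨σ, hσ1, hσ⟩ := key
    exact Iso.od_fix h hS.full hi hσ hσ1

include hcop hE' in
/-- descent of local `ℓ`-th powers -/
theorem pl_down {a z : N'ˣ} {a1 : Nˣ} (h1 : inU N N' a1 = a * z ^ ℓ)
    (W : HeightOneSpectrum (𝓞 N')) (hW : W.valuation N' (algebraMap K N' (ϖ : K)) < 1)
    (hna : IsCoprime (psi F (W.under (𝓞 F)).asIdeal - 1) (ℓ : 𝓞 K)) (hpl : PL ℓ W (a : N')) :
    PL ℓ (W.under (𝓞 N)) (a1 : N) := by
  have e2 : algebraMap N N' (a1 : N) = (a : N') * (z : N') ^ ℓ := by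
    have e3 := congrArg (fun u : N'ˣ => (u : N')) h1
    simpa [inU_coe] using e3
  have hna' : IsCoprime (psi F' (W.under (𝓞 F')).asIdeal - 1) (ℓ : 𝓞 K) := by
    refine cop_up h.hl hS.deg _ ?_
    rw [under_under]
    exact hna
  refine pl_step h hcop hE' hS.full' W hW (na_N h hE' hS.full' W hW hna') a1.ne_zero ?_
  rw [e2]
  exact hpl.mul_pow _

include hcop hE hE' ha hDT in
theorem vw_step (hNA : NA ℓ F) {a z : N'ˣ} {a1 : Nˣ} (haV : VW F' ϖ ℓ P' a)
    (hi : Iso F ℓ P a1) (h1 : inU N N' a1 = a * z ^ ℓ) : VW F ϖ ℓ P a1 := by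
  have hod := od_step' h hS hE ha hDT haV.od hi h1
  have e2 : algebraMap N N' (a1 : N) = (a : N') * (z : N') ^ ℓ := by
    have e3 := congrArg (fun u : N'ˣ => (u : N')) h1
    simpa [inU_coe] using e3
  have hWlt : ∀ (w : HeightOneSpectrum (𝓞 N)) (W : HeightOneSpectrum (𝓞 N')),
      W.under (𝓞 N) = w → w.valuation N (algebraMap K N (ϖ : K)) < 1 →
      W.valuation N' (algebraMap K N' (ϖ : K)) < 1 := by
    intro w W hW hw
    rw [IsScalarTower.algebraMap_apply K N N', val_map_lt, hW]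
    exact hw
  have hFF : ∀ W : HeightOneSpectrum (𝓞 N'), (W.under (𝓞 F')).under (𝓞 F) =
      (W.under (𝓞 N)).under (𝓞 F) := by
    intro W
    rw [under_under, under_under]
  refine ⟨hod, hi, fun w hw hv => ?_, fun w hw hv => ?_⟩
  · obtain ⟨W, hW⟩ := over_exists (L := N') w
    have hWl := hWlt w W hW hw
    have e3 := od_ell F F' ℓ (W.under (𝓞 F'))
    rw [hFF W, hW, hv, mul_one] at e3
    by_cases he : (W.under (𝓞 F')).asIdeal.ramificationIdx (𝓞 F) = 1
    · rw [he, Nat.cast_one] at e3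
      have hr : W.asIdeal.ramificationIdx (𝓞 N) = 1 :=
        (ram_cases h hS W).resolve_right (fun hn => hn he)
      have h4 := wloc_down h W hr hWl a1.ne_zero z.ne_zero (hod _) (haV.loc W hWl e3) e2
      rwa [hW] at h4
    · have hne : od (W.under (𝓞 F')) (ℓ : F') ≠ 1 := by
        rw [e3]
        exact_mod_cast he
      have hna := ha (W.under (𝓞 F')) he
      rw [under_under] at hna
      have h4 := pl_down h hS hcop hE' h1 W hWl hna (haV.pl W hWl hne)
      rw [hW] at h4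
      exact pl_wloc h w hw a1.ne_zero h4
  · obtain ⟨W, hW⟩ := over_exists (L := N') w
    have hWl := hWlt w W hW hw
    have hvl : (w.under (𝓞 F)).valuation F (ℓ : F) < 1 := by
      rw [← val_map_lt, map_natCast, h.val_ell hw]
      exact hw
    have hl0 : (ℓ : F) ≠ 0 := Nat.cast_ne_zero.2 h.hl.ne_zero
    have hpos := (val_lt_one_iff _ hl0).1 hvl
    have e3 := od_ell F F' ℓ (W.under (𝓞 F'))
    rw [hFF W, hW] at e3
    have hr := ramIdx_pos (k := F) (W.under (𝓞 F'))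
    have hne : od (W.under (𝓞 F')) (ℓ : F') ≠ 1 := by
      rw [e3]
      intro h5
      have h6 : (1 : ℤ) ≤ ((W.under (𝓞 F')).asIdeal.ramificationIdx (𝓞 F) : ℤ) := by
        exact_mod_cast hr
      have h7 : 2 ≤ od (w.under (𝓞 F)) (ℓ : F) := by omega
      nlinarith
    have hna := hNA _ hvl hv
    have hna2 : IsCoprime (psi F (W.under (𝓞 F)).asIdeal - 1) (ℓ : 𝓞 K) := by
      rw [← under_under (N := N), hW]
      exact hna
    have h4 := pl_down h hS hcop hE' h1 W hWl hna2 (haV.pl W hWl hne)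
    rwa [hW] at h4

end

section
variable {F F' : Type u} [Field F] [NumberField F] [Algebra K F]
  [Field F'] [NumberField F'] [Algebra K F'] [Algebra F F'] [IsScalarTower K F F'] [IsGalois F F']
  {ϖ : 𝓞 K} {ℓ q : ℕ} (h : PD ϖ ℓ q) (hd : Module.finrank F F' = ℓ)
  (ha : ∀ v : HeightOneSpectrum (𝓞 F'), v.asIdeal.ramificationIdx (𝓞 F) ≠ 1 →
    IsCoprime (psi F (v.under (𝓞 F)).asIdeal - 1) (ℓ : 𝓞 K))
include h hd ha

/-- the step for the group `VTw` in the split case -/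
theorem vtw_step (hcop : IsCoprime ϖ (cj ϖ)) (hE : EP ℓ F) (hNA : NA ℓ F) (hDT : DT ϖ F)
    (hV : VTw ϖ ℓ F) : VTw ϖ ℓ F' := by
  intro N' _ _ _ _ _ _ _ P' hP' y hy
  letI : Algebra F N' := ((algebraMap F' N').comp (algebraMap F F')).toAlgebra
  haveI : IsScalarTower F F' N' := IsScalarTower.of_algebraMap_eq fun x => rfl
  haveI : IsScalarTower K F N' := IsScalarTower.of_algebraMap_eq fun x => by
    rw [IsScalarTower.algebraMap_apply K F' N', IsScalarTower.algebraMap_apply K F F',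
      IsScalarTower.algebraMap_apply F F' N']
  obtain ⟨hG, N, _, _, _, _, _, _, _, _, _, hG1, hG2, P, hS⟩ := exists_sq h hP' hd
  by_contra hn
  have hE' := ep_step h.hl hd hE
  obtain ⟨γ, hγ1, hγ2, -⟩ := exists_gamma h hS
  obtain ⟨a, b, haV, han, hab⟩ := exists_fixed' h hS hγ2 hy hn
  have hb := nm_one' h hS hE' hγ2 haV.iso hab
  haveI : FiniteDimensional N N' := Module.Finite.of_restrictScalars_finite ℚ N N'
  obtain ⟨a0, d, h0⟩ := exists_a0 hS.deg' hγ1 hγ2 hab hb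
  obtain ⟨a1, z, hi, h1⟩ := exists_a1 h hS haV.iso h0
  obtain ⟨x, hx⟩ := hV N P hS.full a1 (vw_step h hS hcop hE hE' ha hDT hNA haV hi h1)
  apply han
  refine ⟨inU N N' x * z⁻¹, ?_⟩
  rw [hx, map_pow] at h1
  rw [mul_pow, inv_pow, h1, mul_assoc, mul_inv_cancel, mul_one]

end

/-- The package which is carried along the tower. -/
structure AW (ϖ : 𝓞 K) (ℓ : ℕ) (F : Type u) [Field F] [NumberField F] [Algebra K F] : Prop where
  /-- the orders of `ℓ` are powers of `ℓ` -/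
  ep : EP ℓ F
  /-- the places which are ramified over `ℓ` are not anomalous -/
  na : NA ℓ F
  /-- if `ℓ` is inert it is unramified -/
  un : ¬ IsCoprime ϖ (cj ϖ) → UnrL ℓ F
  /-- the Selmer group is trivial -/
  vt : VTw ϖ ℓ F
  /-- the decomposition groups at the bad places are not trivial -/
  dt : DT ϖ F

/-- the package over a field which is unramified above `ℓ` -/
theorem AW.base {ϖ : 𝓞 K} {ℓ q : ℕ} (h : PD ϖ ℓ q) {F : Type u} [Field F] [NumberField F]
    [Algebra K F] (hU : UnrL ℓ F) (hV : VT ϖ ℓ F) (hD : DT ϖ F) : AW ϖ ℓ F :=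
  ⟨ep_of_unr hU, na_of_unr hU, fun _ => hU, vtw_of_vt h hU hV, hD⟩

/-- the step of the package -/
theorem AW.step {F F' : Type u} [Field F] [NumberField F] [Algebra K F]
    [Field F'] [NumberField F'] [Algebra K F'] [Algebra F F'] [IsScalarTower K F F']
    [IsGalois F F'] {ϖ : 𝓞 K} {ℓ q : ℕ} (h : PD ϖ ℓ q) (hd : Module.finrank F F' = ℓ)
    (hu : ¬ IsCoprime ϖ (cj ϖ) → ∀ v : HeightOneSpectrum (𝓞 F'), v.valuation F' (ℓ : F') < 1 →
      v.asIdeal.ramificationIdx (𝓞 F) = 1)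
    (ha : ∀ v : HeightOneSpectrum (𝓞 F'), v.asIdeal.ramificationIdx (𝓞 F) ≠ 1 →
      IsCoprime (psi F (v.under (𝓞 F)).asIdeal - 1) (ℓ : 𝓞 K))
    (A : AW ϖ ℓ F) : AW ϖ ℓ F' := by
  by_cases hcop : IsCoprime ϖ (cj ϖ)
  · exact ⟨ep_step h.hl hd A.ep, na_step h.hl hd A.na ha, fun hn => absurd hcop hn,
      vtw_step h hd ha hcop A.ep A.na A.dt A.vt, step_DT h hd A.dt⟩
  · have hU' := unr_step (hu hcop) (A.un hcop)
    exact AW.base h hU' (step_VT h hd (hu hcop) ha hU' A.dt (vt_of_vtw h (A.un hcop) A.vt))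
      (step_DT h hd A.dt)

end Pool.Agent.Lib.MP_1a91b9_nuW.DS
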