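import Pool.Agent.Lib.MP_1a91b9_nuX.DS.Sel
import Pool.Agent.Lib.MP_1a91b9_nuW.W.Wloc
import Pool.Agent.Lib.MP_1a91b9_nuW.W.Ram

/-!
# The Selmer group in Kummer form over fields which are ramified above `ℓ`
-/

set_option autoImplicit false
set_option linter.unusedSectionVars false

namespace Pool.Agent.Lib.MP_1a91b9_nuW.DS

open NumberField IsDedekindDomain WeierstrassCurve Pool.Agent.Lib.MP_1a91b9_nuT
open Pool.Agent.Lib.MP_1a91b9_nuX Pool.Agent.Lib.MP_1a91b9_nuX.DB Pool.Agent.Lib.MP_1a91b9_nuX.DX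
open Pool.Agent.Lib.MP_1a91b9_nuX.DS
open Pool.Agent.Lib.MP_1a91b9_nuW.W

variable [CD]

universe u

section
variable (k : Type u) {N : Type u} [Field k] [NumberField k] [Algebra K k] [Field N] [NumberField N]
  [Algebra K N] [Algebra k N] [IsScalarTower K k N] [DecidableEq N]

/-- the Selmer group in Kummer form; at the places above `ϖ` at which `ℓ` is ramified the classes
are `ℓ`-th powers -/
structure VW (ϖ : 𝓞 K) (ℓ : ℕ) (P : Pt N) (y : Nˣ) : Prop where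
  od : ∀ w : HeightOneSpectrum (𝓞 N), (ℓ : ℤ) ∣ od w (y : N)
  iso : Iso k ℓ P y
  loc : ∀ w : HeightOneSpectrum (𝓞 N), w.valuation N (algebraMap K N (ϖ : K)) < 1 →
    MP_1a91b9_nuT.DB.od (w.under (𝓞 k)) (ℓ : k) = 1 → WLoc ℓ w (y : N)
  pl : ∀ w : HeightOneSpectrum (𝓞 N), w.valuation N (algebraMap K N (ϖ : K)) < 1 →
    MP_1a91b9_nuT.DB.od (w.under (𝓞 k)) (ℓ : k) ≠ 1 → PL ℓ w (y : N)

end

/-- the group `VW` over `F` is trivial -/
def VTw (ϖ : 𝓞 K) (ℓ : ℕ) (F : Type u) [Field F] [NumberField F] [Algebra K F] : Prop :=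
  ∀ (N : Type u) [Field N] [NumberField N] [Algebra K N] [Algebra F N] [IsScalarTower K F N]
    [DecidableEq N] [IsGalois F N] (P : Pt N), Full F ϖ P → ∀ y : Nˣ, VW F ϖ ℓ P y →
    ∃ z : Nˣ, y = z ^ ℓ

/-- if `ℓ` is unramified there is no difference -/
theorem vtw_of_vt {ϖ : 𝓞 K} {ℓ q : ℕ} (h : PD ϖ ℓ q) {F : Type u} [Field F] [NumberField F]
    [Algebra K F] (hU : UnrL ℓ F) (hV : VT ϖ ℓ F) : VTw ϖ ℓ F := by
  intro N _ _ _ _ _ _ _ P hP y hy
  refine hV N P hP y ⟨hy.od, hy.iso, fun w hw => hy.loc w hw (hU _ ?_)⟩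
  rw [← val_map_lt, map_natCast, h.val_ell hw]
  exact hw

theorem vt_of_vtw {ϖ : 𝓞 K} {ℓ q : ℕ} (h : PD ϖ ℓ q) {F : Type u} [Field F] [NumberField F]
    [Algebra K F] (hU : UnrL ℓ F) (hV : VTw ϖ ℓ F) : VT ϖ ℓ F := by
  intro N _ _ _ _ _ _ _ P hP y hy
  refine hV N P hP y ⟨hy.od, hy.iso, fun w hw _ => hy.loc w hw, fun w hw hne => ?_⟩
  refine absurd (hU (w.under (𝓞 F)) ?_) hne
  rw [← val_map_lt, map_natCast, h.val_ell hw]
  exact hw

variable [HC]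

/-- the places above `ℓ` at which `ℓ` is ramified are not anomalous -/
def NA (ℓ : ℕ) (F : Type u) [Field F] [NumberField F] [Algebra K F] : Prop :=
  ∀ v : HeightOneSpectrum (𝓞 F), v.valuation F (ℓ : F) < 1 → od v (ℓ : F) ≠ 1 →
    IsCoprime (psi F v.asIdeal - 1) (ℓ : 𝓞 K)

theorem ep_of_unr {ℓ : ℕ} {F : Type u} [Field F] [NumberField F] (hU : UnrL ℓ F) : EP ℓ F :=
  fun v hv => ⟨0, by rw [hU v hv, pow_zero]⟩

theorem na_of_unr {ℓ : ℕ} {F : Type u} [Field F] [NumberField F] [Algebra K F]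
    (hU : UnrL ℓ F) : NA ℓ F := fun v hv hne => absurd (hU v hv) hne

end Pool.Agent.Lib.MP_1a91b9_nuW.DS
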